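import Mathlib

set_option autoImplicit false

namespace Pool.Agent.Results.MP_c7efa6_co.ProjectivePlane

/-! ### Definitions -/

/-- A graph with its vertex type. -/
structure Gr where
  V : Type
  G : SimpleGraph V

/-- The comparability graph of an ordered set `P`. -/
def comparability (P : Type) [PartialOrder P] : Gr where
  V := P
  G :=
    { Adj := fun x y => x ≠ y ∧ (x ≤ y ∨ y ≤ x)
      symm := ⟨fun _ _ h => ⟨h.1.symm, h.2.symm⟩⟩
      loopless := ⟨fun _ h => h.1 rfl⟩ }

/-- The clique graph: its vertices are the maximal cliques of `g`, two distinct ones being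
adjacent when they share a vertex. -/
def cliqueGraph (g : Gr) : Gr where
  V := {s : Set g.V // Maximal g.G.IsClique s}
  G :=
    { Adj := fun Q R => Q ≠ R ∧ (Q.1 ∩ R.1).Nonempty
      symm := ⟨fun Q R h => ⟨h.1.symm, by rw [Set.inter_comm]; exact h.2⟩⟩
      loopless := ⟨fun _ h => h.1 rfl⟩ }

/-- The fixed point property. -/
def FPP (P : Type) [PartialOrder P] : Prop := ∀ f : P → P, Monotone f → ∃ x, f x = x

/-! ### The mod 2 invariant -/

/-- equal or adjacent -/
def Near (g : Gr) (x y : g.V) : Prop := x = y ∨ g.G.Adj x y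

def Cocycle (g : Gr) (c : g.V → g.V → ZMod 2) : Prop :=
  ∀ x y z, Near g x y → Near g y z → Near g x z → c x y + c y z + c x z = 0

def Coboundary (g : Gr) (c : g.V → g.V → ZMod 2) : Prop :=
  ∃ f : g.V → ZMod 2, ∀ x y, Near g x y → c x y = f x + f y

def H1NZ (g : Gr) : Prop := ∃ c, Cocycle g c ∧ ¬ Coboundary g c

theorem two0 : (2 : ZMod 2) = 0 := rfl

theorem Near.refl {g : Gr} (x : g.V) : Near g x x := Or.inl rfl

theorem Near.symm {g : Gr} {x y : g.V} (h : Near g x y) : Near g y x := by
  rcases h with h | h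
  · exact Or.inl h.symm
  · exact Or.inr h.symm

theorem cocycle_self {g : Gr} {c : g.V → g.V → ZMod 2} (hc : Cocycle g c) (x : g.V) :
    c x x = 0 := by
  have := hc x x x (Near.refl x) (Near.refl x) (Near.refl x)
  linear_combination this - (c x x) * two0

theorem nontrivial_of_H1NZ {g : Gr} (h : H1NZ g) : Nontrivial g.V := by
  obtain ⟨c, hc, hn⟩ := h
  by_contra hcon
  rw [not_nontrivial_iff_subsingleton] at hcon
  apply hn
  refine ⟨fun _ => 0, fun x y _ => ?_⟩
  rw [Subsingleton.elim x y, cocycle_self hc]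
  simp

theorem near_of_clique {g : Gr} {Q : Set g.V} (hQ : g.G.IsClique Q) {x y : g.V} (hx : x ∈ Q)
    (hy : y ∈ Q) : Near g x y := by
  by_cases h : x = y
  · exact Or.inl h
  · exact Or.inr (hQ hx hy h)

theorem exists_max_clique (g : Gr) [Finite g.V] {x y : g.V} (h : Near g x y) :
    ∃ Q : (cliqueGraph g).V, x ∈ Q.1 ∧ y ∈ Q.1 := by
  have hcl : g.G.IsClique {x, y} := by
    intro a ha b hb hab
    rcases h with h | h
    · subst h
      rcases ha with rfl | rfl <;> rcases hb with rfl | rfl <;> exact absurd rfl hab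
    · rcases ha with rfl | rfl <;> rcases hb with rfl | rfl
      · exact absurd rfl hab
      · exact h
      · exact h.symm
      · exact absurd rfl hab
  obtain ⟨Q, hQ, hmax⟩ := (Set.toFinite {s : Set g.V | g.G.IsClique s}).exists_le_maximal hcl
  exact ⟨⟨Q, hmax⟩, hQ (Or.inl rfl), hQ (Or.inr rfl)⟩

theorem H1NZ_clique (g : Gr) [Finite g.V] (h : H1NZ g) : H1NZ (cliqueGraph g) := by
  classical
  have hnt := nontrivial_of_H1NZ h
  obtain ⟨c, hc, hn⟩ := h
  obtain ⟨p, _⟩ := exists_pair_ne g.V
  have hne : ∀ Q : (cliqueGraph g).V, Q.1.Nonempty := by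
    intro Q
    rw [Set.nonempty_iff_ne_empty]
    intro he
    have hsing : g.G.IsClique {p} := Set.pairwise_singleton p _
    have := Q.2.2 hsing (by rw [he]; exact Set.empty_subset _)
    rw [he] at this
    exact this (Set.mem_singleton p)
  choose v hv using hne
  have cl : ∀ Q : (cliqueGraph g).V, ∀ x ∈ Q.1, ∀ y ∈ Q.1, Near g x y :=
    fun Q x hx y hy => near_of_clique Q.2.1 hx hy
  let c' : (cliqueGraph g).V → (cliqueGraph g).V → ZMod 2 := fun Q R =>
    if h : (Q.1 ∩ R.1).Nonempty then c (v Q) h.some + c h.some (v R) else 0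
  have ind : ∀ Q R : (cliqueGraph g).V, ∀ a, a ∈ Q.1 → a ∈ R.1 →
      c' Q R = c (v Q) a + c a (v R) := by
    intro Q R a haQ haR
    have hQR : (Q.1 ∩ R.1).Nonempty := ⟨a, haQ, haR⟩
    show (if h : (Q.1 ∩ R.1).Nonempty then c (v Q) h.some + c h.some (v R) else 0) = _
    rw [dif_pos hQR]
    have hb := hQR.some_mem
    set b := hQR.some with hbdef
    have h1 := hc (v Q) b a (cl Q _ (hv Q) _ hb.1) (cl Q _ hb.1 _ haQ) (cl Q _ (hv Q) _ haQ)
    have h2 := hc b a (v R) (cl Q _ hb.1 _ haQ) (cl R _ haR _ (hv R)) (cl R _ hb.2 _ (hv R))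
    linear_combination h1 + h2 - (c b a + c (v Q) a + c a (v R)) * two0
  have near_iff : ∀ Q R : (cliqueGraph g).V, Near (cliqueGraph g) Q R →
      ∃ a, a ∈ Q.1 ∧ a ∈ R.1 := by
    intro Q R h
    rcases h with h | h
    · subst h
      exact ⟨v Q, hv Q, hv Q⟩
    · obtain ⟨a, ha⟩ := h.2
      exact ⟨a, ha.1, ha.2⟩
  refine ⟨c', ?_, ?_⟩
  · intro Q R S hQR hRS hQS
    obtain ⟨a, haQ, haR⟩ := near_iff Q R hQR
    obtain ⟨b, hbR, hbS⟩ := near_iff R S hRS
    obtain ⟨d, hdQ, hdS⟩ := near_iff Q S hQS
    rw [ind Q R a haQ haR, ind R S b hbR hbS, ind Q S d hdQ hdS]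
    have h1 := hc (v Q) a d (cl Q _ (hv Q) _ haQ) (cl Q _ haQ _ hdQ) (cl Q _ (hv Q) _ hdQ)
    have h2 := hc a (v R) b (cl R _ haR _ (hv R)) (cl R _ (hv R) _ hbR) (cl R _ haR _ hbR)
    have h3 := hc b (v S) d (cl S _ hbS _ (hv S)) (cl S _ (hv S) _ hdS) (cl S _ hbS _ hdS)
    have h4 := hc a b d (cl R _ haR _ hbR) (cl S _ hbS _ hdS) (cl Q _ haQ _ hdQ)
    have h5 := hc (v S) d d (cl S _ (hv S) _ hdS) (Near.refl d) (cl S _ (hv S) _ hdS)
    have h6 := hc (v S) d (v S) (cl S _ (hv S) _ hdS) (cl S _ hdS _ (hv S)) (Near.refl _)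
    have h7 := cocycle_self hc (v S)
    linear_combination h1 + h2 + h3 + h4 + h6 - h7 -
      (c a d + c a b + c b d + c (v S) d) * two0
  · rintro ⟨G', hG'⟩
    apply hn
    have hex : ∀ x : g.V, ∃ Q : (cliqueGraph g).V, x ∈ Q.1 := fun x => by
      obtain ⟨Q, hQ, _⟩ := exists_max_clique g (Near.refl x)
      exact ⟨Q, hQ⟩
    choose q hq using hex
    let f : g.V → ZMod 2 := fun x => G' (q x) + c (v (q x)) x
    have hf : ∀ x (Q : (cliqueGraph g).V), x ∈ Q.1 → f x = G' Q + c x (v Q) := by
      intro x Q hxQ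
      have hnear : Near (cliqueGraph g) (q x) Q := by
        by_cases h : q x = Q
        · exact Or.inl h
        · exact Or.inr ⟨h, x, hq x, hxQ⟩
      have h1 := hG' _ _ hnear
      rw [ind (q x) Q x (hq x) hxQ] at h1
      show G' (q x) + c (v (q x)) x = _
      linear_combination h1 + (G' (q x) - c x (v Q)) * two0
    refine ⟨f, fun x y hxy => ?_⟩
    obtain ⟨Q, hxQ, hyQ⟩ := exists_max_clique g hxy
    rw [hf x Q hxQ, hf y Q hyQ]
    have h1 := hc x (v Q) y (cl Q _ hxQ _ (hv Q)) (cl Q _ (hv Q) _ hyQ) hxy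
    have h2 := hc y (v Q) y (cl Q _ hyQ _ (hv Q)) (cl Q _ (hv Q) _ hyQ) (Near.refl y)
    have h3 := cocycle_self hc y
    linear_combination (-1 : ZMod 2) * h1 - h2 + h3 + (c x y + c (v Q) y - G' Q) * two0

theorem iterate_good (g : Gr) [hf : Finite g.V] (h : H1NZ g) (n : ℕ) :
    Finite (cliqueGraph^[n] g).V ∧ H1NZ (cliqueGraph^[n] g) := by
  induction n with
  | zero => exact ⟨hf, h⟩
  | succ n ih =>
    rw [Function.iterate_succ_apply']
    have := ih.1
    refine ⟨?_, H1NZ_clique _ ih.2⟩
    show Finite {s : Set (cliqueGraph^[n] g).V // Maximal (cliqueGraph^[n] g).G.IsClique s}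
    infer_instance

/-! ### A search for fixed point free order-preserving maps -/

def dfs {α : Type} (le : α → α → Bool) : ℕ → List (α × List α) → Bool
  | 0, _ => false
  | _ + 1, [] => false
  | fuel + 1, (x, ys) :: rest =>
    ys.all (fun y =>
      (rest.map (fun p => (p.1, p.2.filter
        (fun w => (!le x p.1 || le y w) && (!le p.1 x || le w y))))).any
          (fun p => p.2.isEmpty) ||
      dfs le fuel (rest.map (fun p => (p.1, p.2.filter
        (fun w => (!le x p.1 || le y w) && (!le p.1 x || le w y))))))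

theorem dfs_sound {α : Type} (le : α → α → Bool) (fuel : ℕ) (dom : List (α × List α))
    (h : dfs le fuel dom = true) (f : α → α) (hf : ∀ x y, le x y = true → le (f x) (f y) = true)
    (hd : ∀ p ∈ dom, f p.1 ∈ p.2) : False := by
  induction fuel generalizing dom with
  | zero => exact absurd h (by simp [dfs])
  | succ fuel ih =>
    cases dom with
    | nil => exact absurd h (by simp [dfs])
    | cons a rest =>
      obtain ⟨x, ys⟩ := a
      rw [dfs] at h
      have hx : f x ∈ ys := hd (x, ys) List.mem_cons_self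
      have h1 := (List.all_eq_true.1 h) (f x) hx
      have key : ∀ p ∈ rest.map (fun p => (p.1, p.2.filter
          (fun w => (!le x p.1 || le (f x) w) && (!le p.1 x || le w (f x))))), f p.1 ∈ p.2 := by
        intro p hp
        rw [List.mem_map] at hp
        obtain ⟨p', hp', rfl⟩ := hp
        have hmem := hd p' (List.mem_cons_of_mem _ hp')
        show f p'.1 ∈ List.filter _ p'.2
        rw [List.mem_filter]
        refine ⟨hmem, ?_⟩
        rw [Bool.and_eq_true, Bool.or_eq_true, Bool.or_eq_true]
        constructor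
        · by_cases hl : le x p'.1 = true
          · exact Or.inr (hf _ _ hl)
          · left
            simpa using hl
        · by_cases hl : le p'.1 x = true
          · exact Or.inr (hf _ _ hl)
          · left
            simpa using hl
      rw [Bool.or_eq_true] at h1
      rcases h1 with h1 | h1
      · rw [List.any_eq_true] at h1
        obtain ⟨p, hp, hpe⟩ := h1
        have := key p hp
        rw [List.isEmpty_iff] at hpe
        rw [hpe] at this
        exact absurd this List.not_mem_nil
      · exact ih _ h1 key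

/-! ### The 13-point model of the projective plane -/

/-- The face poset of the hemicube: four vertices, six edges and three quadrangular faces. -/
inductive Pt : Type
  | v0 | v1 | v2 | v3 | e01 | e02 | e03 | e12 | e13 | e23 | f0 | f1 | f2
  deriving DecidableEq

open Pt

def allPts : List Pt := [v0, v1, v2, v3, e01, e02, e03, e12, e13, e23, f0, f1, f2]

instance : Fintype Pt :=
  ⟨⟨(allPts : Multiset Pt), by decide⟩, by intro x; cases x <;> decide⟩

/-- `up x` lists the elements strictly above `x`. -/
def up : Pt → List Pt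
  | v0 => [e01, e02, e03, f0, f1, f2]
  | v1 => [e01, e12, e13, f0, f1, f2]
  | v2 => [e02, e12, e23, f0, f1, f2]
  | v3 => [e03, e13, e23, f0, f1, f2]
  | e01 => [f1, f2]
  | e23 => [f1, f2]
  | e02 => [f0, f2]
  | e13 => [f0, f2]
  | e03 => [f0, f1]
  | e12 => [f0, f1]
  | f0 => []
  | f1 => []
  | f2 => []

def ptle (x y : Pt) : Bool := decide (x = y) || (up x).contains y

instance : PartialOrder Pt where
  le x y := ptle x y = true
  le_refl := by decide
  le_trans := by decide +kernel
  le_antisymm := by decide +kernel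

theorem ptle_iff (x y : Pt) : x ≤ y ↔ ptle x y = true := Iff.rfl

def initDom : List (Pt × List Pt) :=
  [e13, e12, e23, e03, e01, e02, f2, f0, v3, v0, v1, v2, f1].map
    (fun x => (x, allPts.filter (fun y => decide (y ≠ x))))

theorem dfs_pt : dfs ptle 14 initDom = true := by decide +kernel

theorem fpp_Pt : FPP Pt := by
  intro f hf
  by_contra hcon
  push Not at hcon
  refine dfs_sound ptle 14 initDom dfs_pt f (fun x y h => hf h) ?_
  intro p hp
  rw [initDom, List.mem_map] at hp
  obtain ⟨x, _, rfl⟩ := hp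
  show f x ∈ List.filter _ _
  rw [List.mem_filter]
  refine ⟨?_, by simpa using hcon x⟩
  have : ∀ y : Pt, y ∈ allPts := by decide
  exact this _

/-- the pairs on which the cocycle is `1` -/
def onePairs : List (Pt × Pt) :=
  [(v1, e01), (v1, f1), (v1, f2), (v2, f1), (v3, e23), (v3, f2), (e12, f1), (e13, f2), (e23, f1)]

def cc (x y : Pt) : ZMod 2 := if onePairs.contains (x, y) || onePairs.contains (y, x) then 1 else 0

def nearB (x y : Pt) : Bool := ptle x y || ptle y x

theorem near_nearB {x y : Pt} (h : Near (comparability Pt) x y) : nearB x y = true := by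
  rcases h with h | h
  · have key : ∀ x : Pt, nearB x x = true := by decide
    have h' : x = y := h
    rw [h']
    exact key y
  · rcases h.2 with h | h
    · show (ptle x y || ptle y x) = true
      rw [Bool.or_eq_true]
      exact Or.inl h
    · show (ptle x y || ptle y x) = true
      rw [Bool.or_eq_true]
      exact Or.inr h

theorem nearB_near {x y : Pt} (h : nearB x y = true) : Near (comparability Pt) x y := by
  by_cases hxy : x = y
  · exact Or.inl hxy
  · right
    refine ⟨hxy, ?_⟩
    rw [nearB, Bool.or_eq_true] at h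
    exact h

theorem cc_cocycle : Cocycle (comparability Pt) cc := by
  have key : ∀ x y z : Pt, nearB x y = true → nearB y z = true → nearB x z = true →
      cc x y + cc y z + cc x z = 0 := by decide +kernel
  intro x y z h1 h2 h3
  exact key x y z (near_nearB h1) (near_nearB h2) (near_nearB h3)

theorem cc_not : ¬ Coboundary (comparability Pt) cc := by
  rintro ⟨f, hf⟩
  have h1 : cc v0 f0 = f v0 + f f0 := hf v0 f0 (nearB_near (by decide))
  have h2 : cc f0 v1 = f f0 + f v1 := hf f0 v1 (nearB_near (by decide))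
  have h3 : cc v1 e01 = f v1 + f e01 := hf v1 e01 (nearB_near (by decide))
  have h4 : cc e01 v0 = f e01 + f v0 := hf e01 v0 (nearB_near (by decide))
  have e1 : cc v0 f0 = 0 := by decide
  have e2 : cc f0 v1 = 0 := by decide
  have e3 : cc v1 e01 = 1 := by decide
  have e4 : cc e01 v0 = 0 := by decide
  rw [e1] at h1
  rw [e2] at h2
  rw [e3] at h3
  rw [e4] at h4
  have : (1 : ZMod 2) = 0 := by
    linear_combination h1 + h2 + h3 + h4 + (f v0 + f f0 + f v1 + f e01) * two0
  exact absurd this (by decide)

/-- There is a finite ordered set (13 points) with the fixed point property all of whose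
iterated clique graphs have at least two vertices. -/
theorem result : ∃ (P : Type) (_ : Finite P) (_ : PartialOrder P),
    FPP P ∧ ∀ n : ℕ, Nontrivial (cliqueGraph^[n] (comparability P)).V := by
  refine ⟨Pt, inferInstance, inferInstance, fpp_Pt, fun n => ?_⟩
  have : Finite (comparability Pt).V := inferInstanceAs (Finite Pt)
  exact nontrivial_of_H1NZ (iterate_good (comparability Pt) ⟨cc, cc_cocycle, cc_not⟩ n).2

end Pool.Agent.Results.MP_c7efa6_co.ProjectivePlane
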